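import Pool.Agent.Lib.MP_50360a_an.Final

/-!
# The supremum of the mean-distance-to-inradius ratio over bounded open planar sets

For a nonempty bounded open set `Ω` of the plane let `d(x)` be the distance from `x` to the
boundary of `Ω`. The supremum over all such `Ω` of the ratio (mean of `d` over `Ω`) / (supremum of
`d` over `Ω`) is `1/3 + log 3 / 4`.

The upper bound is proved by approximating the complement of `Ω` by finite sets in general
position, cutting `Ω` by the Delaunay triangles of these sets (their circumradii are at most the
inradius of `Ω` plus a small error) and the following inequality: the mean over a triangle with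
sides `a`, `b`, `c` of the distance to the nearest vertex is at most
`(1/3 + log 3 / 4) * √(a² + b² + c²) / 3`. The lower bound uses large parallelograms with the points
of a hexagonal lattice removed.
-/

open MeasureTheory

namespace Pool.Agent.Results.MP_50360a_an.MeanDistanceSup

theorem result :
    IsLUB {F : ℝ | ∃ Ω : Set (EuclideanSpace ℝ (Fin 2)), IsOpen Ω ∧ Bornology.IsBounded Ω ∧
      Ω.Nonempty ∧ F = (⨍ x in Ω, Metric.infDist x (frontier Ω)) /
        sSup ((fun x => Metric.infDist x (frontier Ω)) '' Ω)} (1 / 3 + Real.log 3 / 4) :=
  Pool.Agent.MP_50360a_an.isLUB_ratio

end Pool.Agent.Results.MP_50360a_an.MeanDistanceSup
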